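import Pool.Agent.Q36.RD.App

set_option autoImplicit false

/-!
# Parity of the partitions without parts 3 modulo 6 on progressions (MP_24de68_nt, Q2)

Let `a(n)` be the number of partitions of `n` without parts congruent to 3 modulo 6. For all `A ≥ 1` and
`B ≥ 0` such that no `A n + B` is congruent to 2 or 3 modulo 4 there are infinitely many `n` with
`a(A n + B)` odd. So the answer to Q2 is yes: no progression has both properties of Q2.

By the modular equation `(f_1 f_3)^3 ≡ f_1^12 + q f_3^12` modulo 2 the sections of
`∑ a(n) q^n ≡ 1 / (f_1 f_3)` modulo 4 are `f_1^2 / f_3` (class 0) and `f_3^2 / f_1` (class 1). Both satisfy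
the hypotheses of the general theorem on `f_1^m f_3^n`, which is described in
`Results/MP_72e75e_nt/NoParityCongruence`; for `f_1^2 / f_3` (pole at infinity) the condition on the
exponents modulo powers of 3 is satisfied in the same way as that modulo powers of 2, the
action on the functions `c(ζ q)`, `ζ` a root of unity of order `3^w`, being known exactly because of
`c = D + D(q^9)`.
-/

namespace Pool.Agent.Results.MP_24de68_nt.NoEvenProgression

/-- the number of partitions of `n` without parts congruent to 3 modulo 6 -/
def a (n : ℕ) : ℕ := Fintype.card {p : Nat.Partition n // ∀ i ∈ p.parts, i % 6 ≠ 3}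

theorem result (A B : ℕ) (hA : 1 ≤ A) (h : ∀ n, (A * n + B) % 4 ≠ 2 ∧ (A * n + B) % 4 ≠ 3) (N : ℕ) :
    ∃ n, N ≤ n ∧ Odd (a (A * n + B)) := by
  obtain ⟨n, h1, h2⟩ := Pool.Agent.Q36.RD.three A hA B h N
  refine ⟨n, h1, ?_⟩
  have : a (A * n + B) = (Nat.Partition.restricted (A * n + B) (fun i => ¬ i % 6 = 3)).card := by
    rw [a, Fintype.card_subtype]
    rfl
  rw [this]
  exact h2

end Pool.Agent.Results.MP_24de68_nt.NoEvenProgression
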